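import Pool.Agent.N688.ST.Quad
import Pool.Agent.N688.ST.Chain

/-!
# Strings of consecutive primes of the form `a t² + b t - k` in residue classes, with monotone gaps, for almost all `k`

For `a = b = 3` the polynomials are `3 t² + 3 t - k`, the differences `(t + 1)³ - t³` of consecutive cubes shifted by
a constant; the question of the page is about the constant `k = -1`. For no single `k` is it known that there are
infinitely many primes of this form. For almost all `k` the following is proved here about the `t` in short windows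
near the positive root `ξ` of `a t² + b t - k`, where the polynomial takes its smallest positive values.

For all natural numbers `a ≥ 1`, `b`, `l` and all squarefree `Q` there are `H` and `B` such that for all `C`,
`ε > 0`, all `X ≥ X₀` and EVERY finite set `W` of integers `0 ≤ J ≤ (log X)^C`, all but at most `ε X` of the integers
`1 ≤ k ≤ X` for which `f = a t² + b t - k` has no fixed prime divisor have this property: for all but `ε |W|` of the
windows `J ∈ W` and for EVERY residue class `c` modulo `Q` with `f(c)` prime to `Q` there are integers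
`t_0 < ⋯ < t_(l+1)`, all congruent to `c` modulo `Q`, in the window `(ξ + J, ξ + J + (log X)^B]` and in an interval of
length `H`, such that among the integers `t_0 ≤ z ≤ t_(l+1)` exactly the `t_i` give primes `f(z)`. So the `l + 2`
primes `f(t_i)` are CONSECUTIVE primes of the form `a t² + b t - k`, and all their arguments are in the given class
(the analogue of Shiu's theorem on strings of congruent primes). Moreover the gaps increase and each of them divides
the next, `t_j - t_i ∣ t_r - t_j` and `t_j - t_i < t_r - t_j` for all `i < j < r`; and there are also such strings in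
which the gaps decrease and each of them is divisible by the next (the analogue of the answer of Banks, Freiberg and
Turnage-Butterbaugh to the questions of Erdős and Turán on monotone gaps).

Method. With `k = a s² + b s + r`, `t = s + i` one has `f(t) = (2 a s + b) i + a i² - r`, a linear form in the two
parameters `2 a s + b` and `r`; the pairs with first parameter `2 a s + b` have positive density among all pairs, so
that the two-parameter theorem for almost all pairs applies. (1) helper913's theorem on clusters of prime values of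
families of linear forms (`MP_51e72e_nt.BoundedClusters`) for one class of the parameters modulo the small primes is
used for a PRESCRIBED class of the positions `i` (`Pool.Agent.N688.NC.class_thm3`); (2) the class of `i` modulo `Q` is
the given one, and for almost all pairs every shift outside a given set `S` of multiples of `Q` is killed by two
different small primes which kill none of the other shifts (`exists_i0kQ`, `pairs4`, `mt4`); (3) the one-parameter
families (`FT`, `quadQ`); (4) `S` is chosen such that all differences divide the later (earlier) ones (`Chain`).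
-/

set_option autoImplicit false
set_option maxHeartbeats 4000000

open Filter Finset Topology

namespace Pool.Agent.Results.MP_22d6bb_nt.ConsecutiveStrings

/-- The value of the polynomial `a t² + b t - k`. -/
def f (a b k : ℕ) (t : ℤ) : ℤ := a * t ^ 2 + b * t - k

/-- No prime divides all the values of the polynomial. -/
def NoFixedDivisor (a b k : ℕ) : Prop :=
  ∀ p : ℕ, p.Prime → ∃ t : ℤ, ¬ (p : ℤ) ∣ f a b k t

/-- The positive root of the polynomial. -/
noncomputable def root (a b k : ℕ) : ℝ := (√((b : ℝ) ^ 2 + 4 * a * k) - b) / (2 * a)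

/-- The integers `t_0 < ⋯ < t_(l+1)` are congruent to `c` modulo `Q` and lie in the interval `(u, v]` and in an
interval of length `H`, and for `t_0 ≤ z ≤ t_(l+1)` the value at `z` is a prime if and only if `z` is one of them. -/
def IsString {l : ℕ} (a b k Q H : ℕ) (c : ℤ) (u v : ℝ) (t : Fin (l + 2) → ℤ) : Prop :=
  StrictMono t ∧ (∀ i, (Q : ℤ) ∣ t i - c) ∧ (∀ i, u < t i ∧ (t i : ℝ) ≤ v) ∧
    t (Fin.last (l + 1)) ≤ t 0 + H ∧
    ∀ z : ℤ, t 0 ≤ z → z ≤ t (Fin.last (l + 1)) → ((f a b k z).toNat.Prime ↔ ∃ i, z = t i)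

/-- The gaps increase, and each of them divides the later ones. -/
def GapsIncrease {l : ℕ} (t : Fin (l + 2) → ℤ) : Prop :=
  ∀ i j r, i < j → j < r → t j - t i < t r - t j ∧ (t j - t i) ∣ (t r - t j)

/-- The gaps decrease, and each of them is divisible by the later ones. -/
def GapsDecrease {l : ℕ} (t : Fin (l + 2) → ℤ) : Prop :=
  ∀ i j r, i < j → j < r → t r - t j < t j - t i ∧ (t r - t j) ∣ (t j - t i)

/-- For every class `c` modulo `Q` with the value at `c` prime to `Q` there are strings in the window of `J`. -/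
def HasStrings (l a b k Q H B X J : ℕ) : Prop :=
  ∀ c : ℤ, IsCoprime (f a b k c) (Q : ℤ) →
    (∃ t : Fin (l + 2) → ℤ,
      IsString a b k Q H c (root a b k + J) (root a b k + J + Real.log X ^ B) t ∧ GapsIncrease t) ∧
    (∃ t : Fin (l + 2) → ℤ,
      IsString a b k Q H c (root a b k + J) (root a b k + J + Real.log X ^ B) t ∧ GapsDecrease t)

theorem dvd_of_sqf (Q : ℕ) (hQ : Squarefree Q) (x : ℤ) (h : ∀ p : ℕ, p.Prime → p ∣ Q → (p : ℤ) ∣ x) :
    (Q : ℤ) ∣ x := by
  rw [Int.natCast_dvd, ← Nat.prod_primeFactors_of_squarefree hQ]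
  apply Finset.prod_primes_dvd
  · intro p hp
    exact (Nat.prime_of_mem_primeFactors hp).prime
  · intro p hp
    exact Int.natCast_dvd.1 (h p (Nat.prime_of_mem_primeFactors hp) (Nat.dvd_of_mem_primeFactors hp))

/-- the string of the first primes of a cluster -/
theorem extract (a b k Q H l n : ℕ) (ha : 0 < a) (c : ℤ) (u v : ℝ) (S : Finset ℕ) (hS : S ⊆ range H)
    (hQ : Squarefree Q) (hSQ : ∀ h ∈ S, Q ∣ h) (hr : root a b k ≤ n) (hu : u < n) (hv : (n : ℝ) + H ≤ v)
    (hc : ∀ p : ℕ, p.Prime → p ∣ Q → (p : ℤ) ∣ (n : ℤ) - c)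
    (hk : ∀ t ∈ range H \ S, ¬ (f a b k ((n + t : ℕ) : ℤ)).natAbs.Prime)
    (hm : l + 2 ≤ (S.filter (fun h => (f a b k ((n + h : ℕ) : ℤ)).natAbs.Prime)).card) :
    ∃ y : Fin (l + 2) → ℕ, StrictMono y ∧ (∀ i, y i ∈ S) ∧
      IsString a b k Q H c u v (fun i => (n : ℤ) + (y i : ℤ)) := by
  classical
  have hval : ∀ t : ℕ, (f a b k ((n + t : ℕ) : ℤ)).natAbs = (f a b k ((n : ℤ) + (t : ℤ))).toNat := by
    intro t
    have hpos : 0 ≤ f a b k ((n : ℤ) + (t : ℤ)) := by
      apply Pool.Agent.N688.ST.fv_nonneg a b k _ ha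
      show root a b k ≤ _
      have : (0 : ℝ) ≤ t := Nat.cast_nonneg _
      push_cast
      linarith
    have e : ((n + t : ℕ) : ℤ) = (n : ℤ) + (t : ℤ) := by push_cast; ring
    rw [e]
    omega
  set S' := S.filter (fun h => (f a b k ((n + h : ℕ) : ℤ)).natAbs.Prime) with hS'
  set e := S'.orderEmbOfFin rfl with he
  have hmem : ∀ i, e i ∈ S' := fun i => S'.orderEmbOfFin_mem rfl i
  have hrange : ∀ t ∈ S', ∃ i, e i = t := by
    intro t ht
    have : t ∈ Set.range e := by
      rw [he, Finset.range_orderEmbOfFin]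
      exact ht
    exact this
  have hltH : ∀ i, e i < H := fun i => Finset.mem_range.1 (hS (mem_filter.1 (hmem i)).1)
  refine ⟨fun i => e (Fin.castLE hm i), ?_, fun i => (mem_filter.1 (hmem _)).1, ?_, ?_, ?_, ?_, ?_⟩
  · intro i j hij
    exact e.strictMono (by
      rw [Fin.lt_def] at hij ⊢
      exact hij)
  · intro i j hij
    have h3 : e (Fin.castLE hm i) < e (Fin.castLE hm j) := e.strictMono (by
      rw [Fin.lt_def] at hij ⊢
      exact hij)
    show (n : ℤ) + ((e (Fin.castLE hm i) : ℕ) : ℤ) < (n : ℤ) + ((e (Fin.castLE hm j) : ℕ) : ℤ)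
    have h4 : ((e (Fin.castLE hm i) : ℕ) : ℤ) < ((e (Fin.castLE hm j) : ℕ) : ℤ) := by exact_mod_cast h3
    linarith
  · intro i
    have h1 := dvd_of_sqf Q hQ _ hc
    have h2 : (Q : ℤ) ∣ ((e (Fin.castLE hm i) : ℕ) : ℤ) := by
      exact_mod_cast hSQ _ (mem_filter.1 (hmem (Fin.castLE hm i))).1
    have h3 := dvd_add h1 h2
    have e3 : (n : ℤ) + ((e (Fin.castLE hm i) : ℕ) : ℤ) - c =
        (n : ℤ) - c + ((e (Fin.castLE hm i) : ℕ) : ℤ) := by ring
    show (Q : ℤ) ∣ (n : ℤ) + ((e (Fin.castLE hm i) : ℕ) : ℤ) - c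
    rw [e3]
    exact h3
  · intro i
    have h1 := hltH (Fin.castLE hm i)
    have h2 : ((e (Fin.castLE hm i) : ℕ) : ℝ) < H := by exact_mod_cast h1
    have h3 : (0 : ℝ) ≤ ((e (Fin.castLE hm i) : ℕ) : ℝ) := Nat.cast_nonneg _
    constructor
    · push_cast
      linarith
    · push_cast
      linarith
  · have h1 := hltH (Fin.castLE hm (Fin.last (l + 1)))
    have h2 : ((e (Fin.castLE hm (Fin.last (l + 1))) : ℕ) : ℤ) < H := by exact_mod_cast h1
    have h3 : (0 : ℤ) ≤ ((e (Fin.castLE hm 0) : ℕ) : ℤ) := Int.natCast_nonneg _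
    show (n : ℤ) + ((e (Fin.castLE hm (Fin.last (l + 1))) : ℕ) : ℤ) ≤
      (n : ℤ) + ((e (Fin.castLE hm 0) : ℕ) : ℤ) + H
    linarith
  · intro z hz0 hz1
    constructor
    · intro hzp
      have hz0' : (n : ℤ) + ((e (Fin.castLE hm 0) : ℕ) : ℤ) ≤ z := hz0
      have hz1' : z ≤ (n : ℤ) + ((e (Fin.castLE hm (Fin.last (l + 1))) : ℕ) : ℤ) := hz1
      obtain ⟨t, rfl⟩ : ∃ t : ℕ, z = (n : ℤ) + t := ⟨(z - n).toNat, by
        rw [Int.toNat_of_nonneg]
        · ring
        · have : (0 : ℤ) ≤ ((e (Fin.castLE hm 0) : ℕ) : ℤ) := Int.natCast_nonneg _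
          linarith⟩
      have hz1n : t ≤ e (Fin.castLE hm (Fin.last (l + 1))) := by
        have : (t : ℤ) ≤ ((e (Fin.castLE hm (Fin.last (l + 1))) : ℕ) : ℤ) := by linarith
        exact_mod_cast this
      rw [← hval t] at hzp
      have htH : t < H := lt_of_le_of_lt hz1n (hltH _)
      have htS : t ∈ S' := by
        by_cases htF : t ∈ S
        · exact mem_filter.2 ⟨htF, hzp⟩
        · exact absurd hzp (hk t (mem_sdiff.2 ⟨Finset.mem_range.2 htH, htF⟩))
      obtain ⟨j, hj⟩ := hrange t htS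
      have hjl : j ≤ Fin.castLE hm (Fin.last (l + 1)) := by
        rw [← e.le_iff_le, hj]
        exact hz1n
      have hjv : j.val < l + 2 := by
        rw [Fin.le_def] at hjl
        simp only [Fin.val_castLE, Fin.val_last] at hjl
        omega
      refine ⟨⟨j.val, hjv⟩, ?_⟩
      have e4 : Fin.castLE hm ⟨j.val, hjv⟩ = j := Fin.ext rfl
      simp only
      rw [e4, hj]
    · rintro ⟨i, rfl⟩
      simp only
      rw [← hval]
      exact (mem_filter.1 (hmem (Fin.castLE hm i))).2

/-- **Strings of consecutive primes of the form `a t² + b t - k` in residue classes, with monotone gaps.** -/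
theorem result (a b l Q : ℕ) (ha : 0 < a) (hQ : Squarefree Q) : ∃ H B : ℕ,
    ∀ (C : ℕ) (ε : ℝ), 0 < ε → ∃ X₀ : ℕ, ∀ X : ℕ, X₀ ≤ X →
    ∀ W : Finset ℕ, (∀ J ∈ W, (J : ℝ) ≤ Real.log X ^ C) →
    ∃ Bad ⊆ Icc 1 X, (Bad.card : ℝ) ≤ ε * X ∧ ∀ k ∈ Icc 1 X, k ∉ Bad → NoFixedDivisor a b k →
      ∃ G ⊆ W, (1 - ε) * W.card ≤ G.card ∧ ∀ J ∈ G, HasStrings l a b k Q H B X J := by
  classical
  have hQ0 : 0 < Q := Nat.pos_of_ne_zero hQ.ne_zero
  obtain ⟨K, B, hq⟩ := Pool.Agent.N688.ST.quadQ a b ha (l + 2) Q hQ0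
  obtain ⟨H, hH⟩ : ∃ H, H = Pool.Agent.N688.ST.ch Q K + Q := ⟨_, rfl⟩
  refine ⟨H, B + 1, fun C ε hε => ?_⟩
  obtain ⟨X1, hX1⟩ := hq H (Pool.Agent.N688.ST.SI Q K) (hH ▸ Pool.Agent.N688.ST.SI_sub Q K hQ0)
    (Pool.Agent.N688.ST.SI_dvd Q K) (by omega) (Pool.Agent.N688.ST.card_SI Q K hQ0).ge C (ε ^ 2 / 2)
    (by positivity)
  obtain ⟨X2, hX2⟩ := hq H (Pool.Agent.N688.ST.SD Q K) (hH ▸ Pool.Agent.N688.ST.SD_sub Q K hQ0)
    (Pool.Agent.N688.ST.SD_dvd Q K) (by omega) (Pool.Agent.N688.ST.card_SD Q K hQ0).ge C (ε ^ 2 / 2)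
    (by positivity)
  obtain ⟨X3, hX3⟩ := eventually_atTop.1 (Pool.Agent.N913.MT.evt_log_ge (H + 2))
  refine ⟨max X1 (max X2 X3), fun X hX W hW => ?_⟩
  have hXX1 : X1 ≤ X := (le_max_left _ _).trans hX
  have hXX2 : X2 ≤ X := ((le_max_left _ _).trans (le_max_right _ _)).trans hX
  have hXX3 : X3 ≤ X := ((le_max_right _ _).trans (le_max_right _ _)).trans hX
  have hlog : (H : ℝ) + 2 ≤ Real.log X := hX3 X hXX3
  have hH0 : (0 : ℝ) ≤ H := Nat.cast_nonneg _
  have hlogB : Real.log X ^ B + H ≤ Real.log X ^ (B + 1) := by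
    have h1 : (1 : ℝ) ≤ Real.log X ^ B := one_le_pow₀ (by linarith)
    have h2 : Real.log X ^ (B + 1) = Real.log X ^ B * Real.log X := pow_succ _ _
    nlinarith
  obtain ⟨Bad, g1, g2, g3⟩ := Pool.Agent.N913.MG.double (Icc 1 X) W
    (fun k J => NoFixedDivisor a b k → HasStrings l a b k Q H (B + 1) X J) ε X hε (Nat.cast_nonneg _) (by
    intro J hJ
    obtain ⟨B1, p1, p2⟩ := hX1 X hXX1 J (hW J hJ)
    obtain ⟨B2, q1, q2⟩ := hX2 X hXX2 J (hW J hJ)
    refine ⟨B1 ∪ B2, ?_, ?_⟩
    · have h3 : ((B1 ∪ B2).card : ℝ) ≤ B1.card + B2.card := by exact_mod_cast card_union_le _ _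
      linarith
    · intro k hk hkB hloc c hc
      rw [mem_union, not_or] at hkB
      have hc' : ∀ p : ℕ, p.Prime → p ∣ Q → ¬ (p : ℤ) ∣ Pool.Agent.N688.ST.fv a b k c := by
        intro p hp hpQ hd
        obtain ⟨x, y, hxy⟩ := hc
        have h1 : (p : ℤ) ∣ (Q : ℤ) := by exact_mod_cast hpQ
        have h2 : (p : ℤ) ∣ 1 := by
          rw [← hxy]
          exact dvd_add (Dvd.dvd.mul_left hd x) (h1.mul_left y)
        have h3 : p ∣ 1 := by exact_mod_cast h2
        exact hp.one_lt.ne' (Nat.dvd_one.1 h3)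
      obtain ⟨n, n1, n2, n3, n4, n5⟩ := p2 k hk hkB.1 hloc c hc'
      obtain ⟨n', m1, m2, m3, m4, m5⟩ := q2 k hk hkB.2 hloc c hc'
      have hJ0 : (0 : ℝ) ≤ J := Nat.cast_nonneg _
      have n1' : root a b k + J < n := n1
      have m1' : root a b k + J < n' := m1
      have n2' : (n : ℝ) ≤ root a b k + J + Real.log X ^ B := n2
      have m2' : (n' : ℝ) ≤ root a b k + J + Real.log X ^ B := m2
      constructor
      · obtain ⟨y, y1, y2, y3⟩ := extract a b k Q H l n ha c (root a b k + J)
          (root a b k + J + Real.log X ^ (B + 1)) _ (hH ▸ Pool.Agent.N688.ST.SI_sub Q K hQ0) hQ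
          (Pool.Agent.N688.ST.SI_dvd Q K) (by linarith) n1' (by linarith) n3 n4 n5
        refine ⟨_, y3, ?_⟩
        intro i j r hij hjr
        have h1 := Pool.Agent.N688.ST.SI_step Q K hQ0 _ _ _ (y2 i) (y2 j) (y2 r) (y1 hij) (y1 hjr)
        simp only [add_sub_add_left_eq_sub]
        exact h1
      · obtain ⟨y, y1, y2, y3⟩ := extract a b k Q H l n' ha c (root a b k + J)
          (root a b k + J + Real.log X ^ (B + 1)) _ (hH ▸ Pool.Agent.N688.ST.SD_sub Q K hQ0) hQ
          (Pool.Agent.N688.ST.SD_dvd Q K) (by linarith) m1' (by linarith) m3 m4 m5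
        refine ⟨_, y3, ?_⟩
        intro i j r hij hjr
        have h1 := Pool.Agent.N688.ST.SD_step Q K hQ0 _ _ _ (y2 i) (y2 j) (y2 r) (y1 hij) (y1 hjr)
        simp only [add_sub_add_left_eq_sub]
        exact h1)
  refine ⟨Bad, g1, g2, fun k hk hkB hloc => ?_⟩
  obtain ⟨G, h1, h2, h3⟩ := g3 k hk hkB
  exact ⟨G, h1, h2, fun J hJ => h3 J hJ hloc⟩

end Pool.Agent.Results.MP_22d6bb_nt.ConsecutiveStrings
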