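import Mathlib
import Pool.Agent.N791.U.L5

/-!
# The functions of Liouville and Moebius at almost all quadratic polynomials of height `H`, for lengths up to `H^(4-ε)`

The coefficient `a > 0` is fixed (`a = 3` for the polynomial `3 k² + 3 k + 1` of the problem). For all pairs of integers
`|b|, |c| ≤ H` with at most `H² / (log H)^A` exceptions, and every length `N` with `H² ≤ N ≤ H^(4 - ε)`, the functions of
Liouville and Moebius at the values `a n² + b n + c` cancel on the arguments `n ≤ N` at which the value has a prime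
factor in `(s, t]`, where `s ≥ max (N^(3/2+ε) / H², N^(2/3+ε))` and `t ≤ N^(1-ε)`; these arguments have a positive
density, which is computed. Hence both parities of the number of the prime factors have a positive proportion, for
100 percent of the polynomials and for lengths far beyond the height (a prime value has odd parity).

Proof. Completing the square, `a m² + b m + c = a n² + b₀ n + c₀` with `n = m + k`, `b = b₀ + 2 a k`, `0 ≤ b₀ < 2 a` and
`c₀ = c - a k² - b₀ k`, so that the pairs are a family of about `H²` constant terms `c₀`, of both signs, each of which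
occurs a bounded number of times, except for few pairs. A second shift, by `H`, makes the constant terms positive,
`a n² + b' n + c'` with `b'² ≤ 3 a · 2 a H²` and `1 ≤ c' ≤ 2 a H²`. A value `M` with `ω ≥ 1` prime factors in `(s, t]`
has one or two of them, and `λ(M) = - ∑_{p ∣ M} λ(M / p) (1 - ω(M / p) / 2)`. The sums over the cofactors are treated
with the estimate of type II of the project `N792` (Cauchy's inequality over the constant term, the prime and the
roots, and a double large sieve over frequencies and cofactors jointly), which needs the theorem of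
Siegel-Walfisz-Davenport for `λ` and `μ` and holds uniformly for `b'² ≤ Λ C`.
-/

set_option autoImplicit false

namespace Pool.Agent.Results.MP_22d6bb_nt.ParityBeyondHeight

open Finset

/-- The Liouville function on the integers, with the value `0` at `0`. -/
def lam (m : ℤ) : ℤ := if m = 0 then 0 else (-1) ^ ArithmeticFunction.cardFactors m.natAbs

/-- The Moebius function on the integers, `μ(-m) = μ(m)` and `μ(0) = 0`. -/
def mob (m : ℤ) : ℤ := ArithmeticFunction.moebius m.natAbs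

/-- The value of the polynomial. -/
def val (a b c : ℤ) (n : ℕ) : ℤ := a * (n : ℤ) ^ 2 + b * n + c

open Classical in
/-- The set of the `n` with `u < n ≤ v` for which `a n² + b n + c` has a prime factor in `(s, t]`. -/
noncomputable def args (a b c : ℤ) (u v s t : ℕ) : Finset ℕ :=
  (Ioc u v).filter (fun n => ∃ p : ℕ, p.Prime ∧ s < p ∧ p ≤ t ∧ (p : ℤ) ∣ val a b c n)

/-- The sum of the reciprocals of the primes in `(s, t]`. -/
noncomputable def recipSum (s t : ℕ) : ℝ := ∑ p ∈ (Ioc s t).filter Nat.Prime, 1 / (p : ℝ)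

/-- The proportion `ℓ / 2 - ℓ² / 4`, where `ℓ = log (1 / max (3 / 2 - θ, 2 / 3))`; it is positive for `θ > 1 / 2`. -/
noncomputable def delta (θ : ℝ) : ℝ :=
  Real.log (1 / max (3 / 2 - θ) (2 / 3)) / 2 - Real.log (1 / max (3 / 2 - θ) (2 / 3)) ^ 2 / 4

/-- The number of the `n ≤ N` with `λ(a n² + b n + c) = σ`. -/
def signCount (a b c : ℤ) (N : ℕ) (σ : ℤ) : ℕ := #((Icc 1 N).filter (fun n => lam (val a b c n) = σ))

theorem args_eq (a b c : ℤ) (u v s t : ℕ) :
    args a b c u v s t = (Ioc u v).filter (fun n => 1 ≤ Pool.Agent.N791.C2.om s t (Pool.Agent.N792.fv a b c n).natAbs) := by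
  classical
  unfold args
  refine filter_congr fun n hn => ?_
  have e : Pool.Agent.N792.fv a b c n = val a b c n := rfl
  rw [e]
  unfold Pool.Agent.N791.C2.om
  rw [Nat.one_le_iff_ne_zero, ← Nat.pos_iff_ne_zero, card_pos]
  constructor
  · rintro ⟨p, h1, h2, h3, h4⟩
    refine ⟨p, mem_filter.2 ⟨Pool.Agent.N791.C2.mem_PP.2 ⟨⟨h2, h3⟩, h1⟩, ?_⟩⟩
    exact Int.natCast_dvd.1 h4
  · rintro ⟨p, hp⟩
    rw [mem_filter, Pool.Agent.N791.C2.mem_PP] at hp
    exact ⟨p, hp.1.2, hp.1.1.1, hp.1.1.2, Int.natCast_dvd.2 hp.2⟩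

theorem delta_pos {θ : ℝ} (hθ : 1 / 2 < θ) : 0 < delta θ := by
  have h1 : max (3 / 2 - θ) (2 / 3) < 1 := max_lt (by linarith) (by norm_num)
  have h2 : (2 / 3 : ℝ) ≤ max (3 / 2 - θ) (2 / 3) := le_max_right _ _
  unfold delta
  obtain ⟨α, hα⟩ : ∃ α : ℝ, α = max (3 / 2 - θ) (2 / 3) := ⟨_, rfl⟩
  rw [← hα] at h1 h2 ⊢
  have h3 : 0 < Real.log (1 / α) := Real.log_pos (by rw [lt_div_iff₀ (by linarith)]; linarith)
  have h4 : Real.log (1 / α) ≤ 1 / 2 := by
    have h5 : 1 / α ≤ 3 / 2 := by rw [div_le_div_iff₀ (by linarith) (by norm_num)]; linarith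
    have h6 := Real.log_le_sub_one_of_pos (show 0 < 1 / α by positivity)
    linarith
  nlinarith

theorem sign_le (a b c : ℤ) (N : ℕ) {σ : ℤ} : (#((Ioc 0 N).filter (fun n => 0 < Pool.Agent.N792.fv a b c n ∧
    Pool.Agent.N791.C2.lam (Pool.Agent.N792.fv a b c n).natAbs = (σ : ℝ))) : ℝ) ≤ signCount a b c N σ := by
  unfold signCount
  have h2 : (Ioc 0 N).filter (fun n => 0 < Pool.Agent.N792.fv a b c n ∧
      Pool.Agent.N791.C2.lam (Pool.Agent.N792.fv a b c n).natAbs = (σ : ℝ)) ⊆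
      (Icc 1 N).filter (fun n => lam (val a b c n) = σ) := by
    intro n hn
    rw [mem_filter] at hn ⊢
    refine ⟨?_, ?_⟩
    · have := mem_Ioc.1 hn.1
      rw [mem_Icc]; omega
    · have e3 : val a b c n = Pool.Agent.N792.fv a b c n := rfl
      have h4 := hn.2.2
      unfold Pool.Agent.N791.C2.lam at h4
      unfold lam
      rw [e3, if_neg hn.2.1.ne']
      exact_mod_cast h4
  exact_mod_cast card_le_card h2

/-- from the statements for `λ` and for `μ` to the three bounds -/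
theorem three {a b c : ℤ} {ε : ℝ} {R A N C s t u v : ℕ} (hC : (N : ℝ) ^ (3 / 2 + ε) ≤ C * s)
    (hs : (N : ℝ) ^ (2 / 3 + ε) ≤ s) (ht : (t : ℝ) ≤ (N : ℝ) ^ (1 - ε)) (hu : N ≤ R * u) (huv : u ≤ v) (hv : v ≤ N)
    (h1 : Pool.Agent.N791.U.QLm Pool.Agent.N791.C2.lam a ε R A (s, t) N C b c)
    (h2 : Pool.Agent.N791.U.QLm Pool.Agent.N791.C2.mob a ε R A (s, t) N C b c) :
    |((∑ n ∈ args a b c u v s t, lam (val a b c n) : ℤ) : ℝ)| ≤ N / Real.log N ^ A ∧
    |((∑ n ∈ args a b c u v s t, mob (val a b c n) : ℤ) : ℝ)| ≤ N / Real.log N ^ A ∧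
    |(#(args a b c u v s t) : ℝ) - ((v : ℝ) - u) * (recipSum s t - recipSum s t ^ 2 / 2)| ≤ N / Real.log N ^ A := by
  classical
  obtain ⟨d0, d1, d2⟩ := h1 hC hs ht u v hu huv hv
  obtain ⟨_, d3, _⟩ := h2 hC hs ht u v hu huv hv
  rw [args_eq a b c u v s t]
  refine ⟨?_, ?_, ?_⟩
  · have e2 : ((∑ n ∈ (Ioc u v).filter (fun n =>
        1 ≤ Pool.Agent.N791.C2.om s t (Pool.Agent.N792.fv a b c n).natAbs), lam (val a b c n) : ℤ) : ℝ) =
        ∑ n ∈ (Ioc u v).filter (fun n =>
        1 ≤ Pool.Agent.N791.C2.om s t (Pool.Agent.N792.fv a b c n).natAbs),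
          Pool.Agent.N791.C2.lam (Pool.Agent.N792.fv a b c n).natAbs := by
      push_cast
      refine sum_congr rfl fun n hn => ?_
      have hp := d0 n (mem_filter.1 hn).1
      have e3 : val a b c n = Pool.Agent.N792.fv a b c n := rfl
      unfold lam Pool.Agent.N791.C2.lam
      rw [e3, if_neg hp.ne']
      push_cast
      rfl
    rw [e2]
    exact d1
  · have e2 : ((∑ n ∈ (Ioc u v).filter (fun n =>
        1 ≤ Pool.Agent.N791.C2.om s t (Pool.Agent.N792.fv a b c n).natAbs), mob (val a b c n) : ℤ) : ℝ) =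
        ∑ n ∈ (Ioc u v).filter (fun n =>
        1 ≤ Pool.Agent.N791.C2.om s t (Pool.Agent.N792.fv a b c n).natAbs),
          Pool.Agent.N791.C2.mob (Pool.Agent.N792.fv a b c n).natAbs := by
      push_cast
      exact sum_congr rfl fun n hn => rfl
    rw [e2]
    exact d3
  · exact d2

/-- **The functions of Liouville and Moebius at 100 percent of the quadratic polynomials of height `H`,
`H² ≤ N ≤ H^(4-ε)`.** Let `a > 0` be fixed.

(1) Let `ε > 0`, `R` and `A` be fixed. For `H ≥ H0`, all `N` with `H² ≤ N ≤ H^(4-ε)` and all `s`, `t` with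
`N^(3/2+ε) ≤ H² s`, `N^(2/3+ε) ≤ s` and `t ≤ N^(1-ε)`, all but at most `H² / (log H)^A` of the pairs `q = (b, c)` of
integers with `|b|, |c| ≤ H` have the following property: for all `N / R ≤ u ≤ v ≤ N`, with `f(n) = a n² + b n + c` and
the set `T` of the `u < n ≤ v` for which `f(n)` has a prime factor in `(s, t]`, the sums of `λ(f(n))` and of `μ(f(n))`
over `T` are at most `N / (log N)^A` in absolute value, and the number of the elements of `T` differs from
`(v - u) * (Λ - Λ² / 2)` by at most `N / (log N)^A`, where `Λ` is the sum of `1 / p` over the primes in `(s, t]`.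

(2) Let `θ > 1 / 2`, `η > 0` and `A` be fixed. For `H ≥ H0` and all `N` with `H² ≤ N`, `N^θ ≤ H²`, all but at most
`H² / (log H)^A` of the pairs `|b|, |c| ≤ H` have the following property: each of the two signs is the value of
`λ(a n² + b n + c)` for at least `(delta θ - η) N` of the `n ≤ N`. -/
theorem result (a : ℤ) (ha : 0 < a) :
    (∀ (ε : ℝ) (R A : ℕ), 0 < ε → ∃ H0 : ℕ, ∀ H : ℕ, H0 ≤ H → ∀ N s t : ℕ,
      H ^ 2 ≤ N → (N : ℝ) ≤ (H : ℝ) ^ (4 - ε) → (N : ℝ) ^ (3 / 2 + ε) ≤ (H : ℝ) ^ 2 * s → (N : ℝ) ^ (2 / 3 + ε) ≤ s →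
      (t : ℝ) ≤ (N : ℝ) ^ (1 - ε) →
      ∃ Ex ⊆ Icc (-(H : ℤ)) H ×ˢ Icc (-(H : ℤ)) H, (#Ex : ℝ) ≤ H ^ 2 / Real.log H ^ A ∧
        ∀ q ∈ Icc (-(H : ℤ)) H ×ˢ Icc (-(H : ℤ)) H, q ∉ Ex → ∀ u v : ℕ, N ≤ R * u → u ≤ v → v ≤ N →
          |((∑ n ∈ args a q.1 q.2 u v s t, lam (val a q.1 q.2 n) : ℤ) : ℝ)| ≤ N / Real.log N ^ A ∧
          |((∑ n ∈ args a q.1 q.2 u v s t, mob (val a q.1 q.2 n) : ℤ) : ℝ)| ≤ N / Real.log N ^ A ∧
          |(#(args a q.1 q.2 u v s t) : ℝ) - ((v : ℝ) - u) * (recipSum s t - recipSum s t ^ 2 / 2)| ≤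
            N / Real.log N ^ A) ∧
    (∀ (θ η : ℝ) (A : ℕ), 1 / 2 < θ → 0 < η → 0 < delta θ ∧ ∃ H0 : ℕ, ∀ H : ℕ, H0 ≤ H → ∀ N : ℕ,
      H ^ 2 ≤ N → (N : ℝ) ^ θ ≤ (H : ℝ) ^ 2 →
      ∃ Ex ⊆ Icc (-(H : ℤ)) H ×ˢ Icc (-(H : ℤ)) H, (#Ex : ℝ) ≤ H ^ 2 / Real.log H ^ A ∧
        ∀ q ∈ Icc (-(H : ℤ)) H ×ˢ Icc (-(H : ℤ)) H, q ∉ Ex → ∀ σ : ℤ, (σ = 1 ∨ σ = -1) →
        (delta θ - η) * N ≤ signCount a q.1 q.2 N σ) := by
  classical
  constructor
  · intro ε R A hε
    obtain ⟨n0, h0⟩ := Pool.Agent.N791.U.pair_lm Pool.Agent.N791.C2.cls_lam a ha ε hε (max R 1) (A + 1)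
      (le_max_right _ _)
    obtain ⟨n1, h1⟩ := Pool.Agent.N791.U.pair_lm Pool.Agent.N791.C2.cls_mob a ha ε hε (max R 1) (A + 1)
      (le_max_right _ _)
    have e1 : ∀ᶠ x : ℕ in Filter.atTop, (2 : ℝ) ≤ Real.log x := Pool.Agent.N792.Shp.log_ge _
    obtain ⟨n2, h2⟩ := Filter.eventually_atTop.1 e1
    refine ⟨n0 + n1 + n2 + 1, fun H hH N s t hN1 hN2 hs1 hs2 ht => ?_⟩
    have hHN : H ≤ N := by nlinarith
    have hLH := h2 H (by omega)
    have hLN := h2 N (by omega)
    obtain ⟨E1, p1, p2, p3⟩ := h0 (s, t) H (by omega) N hN1 hN2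
    obtain ⟨E2, q1, q2, q3⟩ := h1 (s, t) H (by omega) N hN1 hN2
    have hLA : ∀ (y L : ℝ), 0 ≤ y → 2 ≤ L → y / L ^ (A + 1) ≤ (1 / 2) * (y / L ^ A) := by
      intro y L hy hL
      have hL0 : 0 < L := by linarith
      have e2 : y / L ^ (A + 1) = (1 / L) * (y / L ^ A) := by rw [pow_succ]; field_simp
      rw [e2]
      apply mul_le_mul_of_nonneg_right _ (by positivity)
      exact one_div_le_one_div_of_le (by norm_num) hL
    have hxh := hLA N (Real.log N) (Nat.cast_nonneg _) hLN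
    have hch := hLA ((H : ℝ) ^ 2) (Real.log H) (by positivity) hLH
    have hLN0 : 0 < Real.log N := by linarith
    have hx0 : 0 ≤ (N : ℝ) / Real.log N ^ A := by positivity
    refine ⟨E1 ∪ E2, union_subset p1 q1, ?_, ?_⟩
    · have : (#(E1 ∪ E2) : ℝ) ≤ #E1 + #E2 := by exact_mod_cast card_union_le _ _
      linarith
    · intro q hq hqE u v hu huv hv
      rw [mem_union, not_or] at hqE
      obtain ⟨m1, m2, m3⟩ := three (by push_cast; exact hs1) hs2 ht
        (hu.trans (Nat.mul_le_mul_right _ (le_max_left _ _))) huv hv (p3 q hq hqE.1) (q3 q hq hqE.2)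
      exact ⟨m1.trans (hxh.trans (by linarith)), m2.trans (hxh.trans (by linarith)), m3.trans (hxh.trans (by linarith))⟩
  · intro θ η A hθ hη
    refine ⟨delta_pos hθ, ?_⟩
    obtain ⟨n0, h0⟩ := Pool.Agent.N791.U.pair_signs a ha θ hθ η hη A
    refine ⟨n0, fun H hH N hN1 hN2 => ?_⟩
    obtain ⟨Ex, p1, p2, p3⟩ := h0 H hH N hN1 hN2
    refine ⟨Ex, p1, p2, fun q hq hqE σ hσ => ?_⟩
    have h1 := p3 q hq hqE (σ : ℝ) (by
      rcases hσ with h | h
      · left; rw [h]; norm_num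
      · right; rw [h]; norm_num)
    exact h1.trans (sign_le a q.1 q.2 N)

end Pool.Agent.Results.MP_22d6bb_nt.ParityBeyondHeight
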