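import Pool.Agent.N728.QU.AllG

set_option autoImplicit false

/-!
# Primes `3 m² + 3 m + c - (3 h² + 3 h)`

For every integer `c` with few small prime factors, prime to `6`, `|c| ≤ K H²`, and all but at most `ε H` of the `h ≤ H`,
the number of the `m ≤ M` for which `3 m² + 3 m + k`, `k = c - (3 h² + 3 h)`, is a prime is the number predicted by Hardy
and Littlewood, for all `M ≤ K H` simultaneously. Here `3 m² + 3 m + 1 = (m + 1)³ - m³`, so for `c = 1` these are the
primes `(m + 1)³ - m³ - ((h + 1)³ - h³ - 1)`; `h = 0` gives the primes which are differences of consecutive cubes.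

Proof (`Agent/N728/QU`): for `f = 3 X² + 3 X`, `f(m) - f(h) + c = u v + c` with `u = m - h`, `v = 3 (m + h) + 3 = 3 u + b'`,
`b' = 6 h + 3` (and `c - u v` with `u = h - m`, `v = - 3 u + b'` for `m < h`). Bilinear sums over `c ± u v` with an
arbitrary bounded function of `v ∓ 3 u` do not change if a divisor of `u v`, composed of primes of a suitable range, is
moved from `u` to `v`; by the multiplication table phenomenon of Erdős few multiplicative windows contain such a divisor,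
and the off-diagonal terms are bounded by two applications of the Cauchy-Schwarz inequality and the fundamental lemma of
the sieve (functions with mean zero on the cells (residue class and block)). For the functions constant on the cells the
range is shifted, by moving divisors again, to `u ≤ v / (log v)^C`, where the theorem of Bombieri and Vinogradov at the
sharp level applies. All this is uniform in `c`.
-/

namespace Pool.Agent.Results.MP_22d6bb_nt.ThinFamilyOfConstants

open Finset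

/-- `c` has few small prime factors beyond `s₀`: `∑_{p ∣ c, p > s} 1/p ≤ 1/√s` for all `s ≥ s₀`. -/
def Tame (s₀ : ℕ) (c : ℤ) : Prop :=
  c ≠ 0 ∧ ∀ s : ℕ, s₀ ≤ s → ∑ p ∈ c.natAbs.primeFactors.filter (fun p => s < p), 1 / (p : ℝ) ≤ 1 / √(s : ℝ)

/-- Every fixed `c ≠ 0`, for example `c = 1`, satisfies the condition with `s₀ = |c|`. -/
theorem tame_natAbs (c : ℤ) (h : c ≠ 0) : Tame c.natAbs c := by
  refine ⟨h, fun s hs => ?_⟩
  have h1 : c.natAbs.primeFactors.filter (fun p => s < p) = ∅ := by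
    rw [filter_eq_empty_iff]
    intro p hp hsp
    have := Nat.le_of_mem_primeFactors hp
    omega
  rw [h1, sum_empty]
  positivity

/-- The difference `(n + 1)³ - n³ - 1 = 3 n² + 3 n`. -/
def diff (n : ℤ) : ℤ := (n + 1) ^ 3 - n ^ 3 - 1

/-- The number of the `1 ≤ m ≤ M` with `3 m² + 3 m + k` a (positive) prime. -/
def primeCount (k : ℤ) (M : ℕ) : ℕ := ((Icc 1 M).filter (fun m : ℕ => (diff m + k).toNat.Prime)).card

/-- The sum of `1 / log (3 m² + 3 m + k)` over the `1 ≤ m ≤ M` with `3 m² + 3 m + k ≥ 2`. -/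
noncomputable def logSum (k : ℤ) (M : ℕ) : ℝ :=
  ∑ m ∈ (Icc 1 M).filter (fun m : ℕ => 2 ≤ diff m + k), 1 / Real.log ((diff m + k : ℤ) : ℝ)

/-- The number of the solutions of `3 m² + 3 m + k ≡ 0` modulo `p`. -/
def omega (k : ℤ) (p : ℕ) : ℕ := ((range p).filter (fun m : ℕ => (p : ℤ) ∣ diff m + k)).card

/-- The product of Hardy and Littlewood for `3 X² + 3 X + k`, over the primes `p ≤ Z`. -/
noncomputable def series (k : ℤ) (Z : ℕ) : ℝ :=
  ∏ p ∈ (Ioc 0 Z).filter Nat.Prime, (1 - (omega k p : ℝ) / p) / (1 - 1 / (p : ℝ))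

/-- The conclusion for one `k`: the product is at least `κ`, and the number of primes `3 m² + 3 m + k`, `m ≤ M`, is the
expected one up to `δ H / log H`, for all `M ≤ K H`. -/
def Good (κ δ : ℝ) (K H Z : ℕ) (k : ℤ) : Prop :=
  κ ≤ series k Z ∧ ∀ M : ℕ, M ≤ K * H → |(primeCount k M : ℝ) - series k Z * logSum k M| ≤ δ * (H / Real.log H)

open Classical in
/-- The number of the `1 ≤ h ≤ H` for which the conclusion fails for `k = c - (3 h² + 3 h)`. -/
noncomputable def exceptions (κ δ : ℝ) (c : ℤ) (K H Z : ℕ) : ℕ :=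
  ((Icc 1 H).filter (fun h : ℕ => ¬ Good κ δ K H Z (c - diff h))).card

lemma Vg_eq (c : ℤ) (h m : ℕ) : Pool.Agent.N728.QU.Vg 3 3 1 c h m = diff m + (c - diff h) := by
  unfold Pool.Agent.N728.QU.Vg diff
  ring

lemma adg {c : ℤ} (hc : Int.gcd c 6 = 1) : Pool.Agent.N728.QU.Adg 3 3 c := by
  have key : ∀ q : ℤ, q ∣ 6 → ¬ IsUnit q → ¬ q ∣ c := by
    intro q hq hu hqc
    have h1 : q ∣ (Int.gcd c 6 : ℤ) := Int.dvd_coe_gcd hqc hq
    rw [hc] at h1
    exact hu (isUnit_of_dvd_one (by exact_mod_cast h1))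
  refine ⟨fun p hp h1 _ => ?_, fun _ => ?_⟩
  · apply key
    · exact h1.trans (by norm_num)
    · intro hu
      have := Int.isUnit_iff.1 hu
      have h2 := hp.two_le
      omega
  · apply key
    · norm_num
    · intro hu
      have := Int.isUnit_iff.1 hu
      omega

/-- **Theorem.** -/
theorem result (s₀ : ℕ) :
    ∀ ε : ℝ, 0 < ε → ∃ κ : ℝ, 0 < κ ∧ ∀ (δ : ℝ) (K : ℕ), 0 < δ → ∃ Z₀ : ℕ, ∀ A : ℕ, ∃ H₀ : ℕ, ∀ H : ℕ, H₀ ≤ H →
      ∀ (c : ℤ) (Z : ℕ), Tame s₀ c → Int.gcd c 6 = 1 → c.natAbs ≤ K * H ^ 2 → Z₀ ≤ Z → (Z : ℝ) ≤ Real.log H ^ A →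
      (exceptions κ δ c K H Z : ℝ) ≤ ε * H := by
  classical
  intro ε hε
  obtain ⟨κ, hκ, h1⟩ := Pool.Agent.N728.QU.finalGU 3 3 (by norm_num) s₀ ε hε
  refine ⟨κ, hκ, fun δ K hδ => ?_⟩
  obtain ⟨Z₀, h2⟩ := h1 δ K hδ
  refine ⟨Z₀, fun A => ?_⟩
  obtain ⟨H₀, h3⟩ := h2 A
  refine ⟨H₀, fun H hH c Z hc h6 hcK hZ1 hZ2 => ?_⟩
  have h4 := h3 H hH Z c 1 hc (adg h6) (Or.inl rfl) hcK hZ1 hZ2
  refine le_trans (le_of_eq ?_) h4
  unfold exceptions
  congr 2
  apply filter_congr
  intro h hh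
  unfold Good primeCount logSum series omega Pool.Agent.N728.QU.cntg Pool.Agent.N728.QU.Sqg
  simp only [Vg_eq]

end Pool.Agent.Results.MP_22d6bb_nt.ThinFamilyOfConstants
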